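import Pool.Agent.Work.MP_4cd38d_pr_helper56.LAM

set_option autoImplicit false

namespace Pool.HD.helper56

open Pool.Agent.Work.MP_4cd38d_pr

/-- the words of length at most `n` over the letters `< s` -/
def wordsUp (s : ℕ) : ℕ → Finset (List ℕ)
  | 0 => {[]}
  | n + 1 => insert [] ((Finset.range s ×ˢ wordsUp s n).image fun q => q.1 :: q.2)

theorem mem_wordsUp {s n : ℕ} {x : List ℕ} (hx : ∀ c ∈ x, c < s) (hn : x.length ≤ n) :
    x ∈ wordsUp s n := by
  induction n generalizing x with
  | zero =>
    have : x = [] := List.eq_nil_of_length_eq_zero (by omega)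
    rw [this]
    exact Finset.mem_singleton_self _
  | succ n ih =>
    cases x with
    | nil => exact Finset.mem_insert_self _ _
    | cons c x =>
      refine Finset.mem_insert_of_mem (Finset.mem_image.mpr ⟨(c, x), ?_, rfl⟩)
      refine Finset.mem_product.mpr ⟨Finset.mem_range.mpr (hx c (by simp)), ?_⟩
      refine ih (fun d hd => hx d (List.mem_cons_of_mem _ hd)) ?_
      simp only [List.length_cons] at hn
      show x.length ≤ n
      omega

theorem length_flatMap_ge {C l : ℕ} (G' : ℕ → List ℕ) (x : List ℕ)
    (h : ∀ c ∈ x, l ≤ C * (G' c).length) : x.length * l ≤ C * (x.flatMap G').length := by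
  induction x with
  | nil => simp
  | cons c x ih =>
    have h1 := h c (by simp)
    have h2 := ih fun d hd => h d (by simp [hd])
    rw [List.flatMap_cons, List.length_append, List.length_cons, mul_add, add_mul]
    omega

/-- a prefix of a dropped word only needs as many letters as it is long -/
theorem prefix_drop_of {p X R : List ℕ} {o : ℕ} (h : p <+: (X ++ R).drop o)
    (hl : p.length + o ≤ X.length) : p <+: X.drop o := by
  rw [List.drop_append_of_le_length (by omega)] at h
  refine List.prefix_of_prefix_length_le h (List.prefix_append _ _) ?_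
  rw [List.length_drop]
  omega

theorem stmt_CNT (hOV1 : Stmt_OV1) (hOV2 : Stmt_OV2) (hRES : Stmt_RES) (hSPC : Stmt_SPC) :
    Stmt_CNT := by
  classical
  intro s s' C K hs hs'
  set M := (wordsUp s' C).card with hM
  set NR := 1 + s * (s' * (M * (K * C + 1))) with hNR
  refine ⟨1 + (NR + s * (NR * M)), fun G G' hcmp hpf => ?_⟩
  have hNE : NE s s' G G' := by
    refine ⟨fun a ha h => ?_, fun b hb h => ?_⟩
    · have := (hcmp a ha 0 hs').1
      rw [h] at this
      exact absurd this (by simp)
    · have := (hcmp 0 hs b hb).2.1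
      rw [h] at this
      exact absurd this (by simp)
  -- the occurrences
  set O : ℕ → ℕ → List ℕ → Finset ℕ := fun a b η =>
    (Finset.range (G' b).length).filter fun o => G a <+: ((b :: η).flatMap G').drop o with hO
  have hOc : ∀ a < s, ∀ b < s', ∀ η, (O a b η).card ≤ K * C + 1 := by
    intro a ha b hb η
    refine hSPC K C (G' b).length (G a) ((b :: η).flatMap G') (O a b η) (hpf a ha) (hNE.1 a ha)
      (hcmp a ha b hb).2.2.2 fun o ho => ?_
    have := Finset.mem_filter.mp ho
    exact ⟨Finset.mem_range.mp this.1, this.2⟩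
  set FR : Finset (List ℕ) := insert [] ((Finset.range s).biUnion fun a =>
    (Finset.range s').biUnion fun b => (wordsUp s' C).biUnion fun η =>
      (O a b η).image fun o => (G' b).drop o) with hFR
  have hFRc : FR.card ≤ NR := by
    have h1 : ((Finset.range s).biUnion fun a =>
        (Finset.range s').biUnion fun b => (wordsUp s' C).biUnion fun η =>
          (O a b η).image fun o => (G' b).drop o).card ≤ s * (s' * (M * (K * C + 1))) := by
      refine Finset.card_biUnion_le.trans ((Finset.sum_le_card_nsmul _ _ (s' * (M * (K * C + 1)))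
        fun a ha => ?_).trans (by rw [Finset.card_range, smul_eq_mul]))
      refine Finset.card_biUnion_le.trans ((Finset.sum_le_card_nsmul _ _ (M * (K * C + 1))
        fun b hb => ?_).trans (by rw [Finset.card_range, smul_eq_mul]))
      refine Finset.card_biUnion_le.trans ((Finset.sum_le_card_nsmul _ _ (K * C + 1)
        fun η _ => ?_).trans (by rw [smul_eq_mul]))
      exact Finset.card_image_le.trans (hOc a (Finset.mem_range.mp ha) b (Finset.mem_range.mp hb) η)
    have h2 := Finset.card_insert_le ([] : List ℕ) ((Finset.range s).biUnion fun a =>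
        (Finset.range s').biUnion fun b => (wordsUp s' C).biUnion fun η =>
          (O a b η).image fun o => (G' b).drop o)
    rw [← hFR] at h2
    omega
  have hright : ∀ ω, (∃ ρ, ω ++ ρ ∈ WW s s' G G') → (o1 G ω).length ≤ (o2 G' ω).length →
      ∃ β ∈ FR, o2 G' ω = o1 G ω ++ β := by
    rintro ω ⟨ρ, hρ⟩ hle
    rcases hOV1 s s' G G' hNE ω ρ hρ hle with h | ⟨a, b, y, o, ha, hb, hy, ho, h1, h2⟩
    · exact ⟨[], Finset.mem_insert_self _ _, by rw [List.append_nil]; exact h.symm⟩
    · refine ⟨(G' b).drop o, ?_, h1⟩
      refine Finset.mem_insert_of_mem (Finset.mem_biUnion.mpr ⟨a, Finset.mem_range.mpr ha,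
        Finset.mem_biUnion.mpr ⟨b, Finset.mem_range.mpr hb, Finset.mem_biUnion.mpr
          ⟨y.take C, mem_wordsUp (fun c hc => hy c (List.mem_of_mem_take hc))
            (List.length_take_le _ _), Finset.mem_image.mpr ⟨o, ?_, rfl⟩⟩⟩⟩)
      refine Finset.mem_filter.mpr ⟨Finset.mem_range.mpr ho, ?_⟩
      rcases Nat.lt_or_ge C y.length with hCy | hCy
      · have h3 : (b :: y).flatMap G' = (b :: y.take C).flatMap G' ++ (y.drop C).flatMap G' := by
          rw [List.flatMap_cons, List.flatMap_cons, List.append_assoc, ← List.flatMap_append,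
            List.take_append_drop]
        rw [h3] at h2
        refine prefix_drop_of h2 ?_
        have h4 := length_flatMap_ge (C := C) (l := (G a).length) G' (y.take C)
          fun c hc => (hcmp a ha c (hy c (List.mem_of_mem_take hc))).2.2.1
        rw [List.length_take, min_eq_left (le_of_lt hCy)] at h4
        have hC : 0 < C := by
          have h5 := (hcmp a ha b hb).1
          have h6 := (hcmp a ha b hb).2.2.1
          rcases Nat.eq_zero_or_pos C with h7 | h7
          · rw [h7, zero_mul] at h6
            omega
          · exact h7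
        have h5 : (G a).length ≤ ((y.take C).flatMap G').length := Nat.le_of_mul_le_mul_left h4 hC
        rw [List.flatMap_cons, List.length_append]
        omega
      · rw [List.take_of_length_le hCy]
        exact h2
  set FL : Finset (List ℕ) := (Finset.range s).biUnion fun a => FR.biUnion fun β =>
    (wordsUp s' C).image fun ξ => (G a).drop (β.length + (ξ.flatMap G').length) with hFL
  have hFLc : FL.card ≤ s * (NR * M) := by
    refine Finset.card_biUnion_le.trans ((Finset.sum_le_card_nsmul _ _ (NR * M)
        fun a ha => ?_).trans (by rw [Finset.card_range, smul_eq_mul]))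
    refine Finset.card_biUnion_le.trans ((Finset.sum_le_card_nsmul _ _ M
        fun b hb => Finset.card_image_le).trans ?_)
    rw [smul_eq_mul]
    exact Nat.mul_le_mul_right _ hFRc
  refine nerode_of hRES s s' G G' (FR.image (fun x => (true, x)) ∪ FL.image (fun x => (false, x)))
    _ ?_ ?_
  · have h1 := Finset.card_union_le (FR.image (fun x => ((true, x) : Bool × List ℕ)))
      (FL.image (fun x => (false, x)))
    have h2 : (FR.image (fun x => ((true, x) : Bool × List ℕ))).card ≤ FR.card :=
      Finset.card_image_le
    have h3 : (FL.image (fun x => ((false, x) : Bool × List ℕ))).card ≤ FL.card :=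
      Finset.card_image_le
    omega
  · rintro ω ⟨ρ, hρ⟩
    rcases Nat.lt_or_ge (o2 G' ω).length (o1 G ω).length with hlt | hle
    · obtain ⟨ω₀, a, ξ, β, α, hω, ha, hξ, hle0, h1, h2, hα, h3⟩ := hOV2 s s' G G' hNE ω ρ hρ hlt
      refine ⟨(false, α), ?_, Or.inr ⟨rfl, hα, h2⟩⟩
      refine Finset.mem_union_right _ (Finset.mem_image.mpr ⟨α, ?_, rfl⟩)
      have hβ : β ∈ FR := by
        obtain ⟨β', hβ', h4⟩ := hright ω₀ ⟨Sum.inl a :: ξ.map Sum.inr ++ ρ, by
          rw [hω] at hρ
          simpa using hρ⟩ hle0
        rw [h1] at h4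
        have := List.append_cancel_left h4
        rw [this]
        exact hβ'
      have hξC : ξ.length ≤ C := by
        have h4 := length_flatMap_ge (C := C) (l := (G a).length) G' ξ
          fun c hc => (hcmp a ha c (hξ c hc)).2.2.1
        by_contra hcon
        have h5 : (C + 1) * (G a).length ≤ ξ.length * (G a).length :=
          Nat.mul_le_mul_right _ (by omega)
        have h6 : (ξ.flatMap G').length ≤ (G a).length := by
          rw [h3, List.length_append, List.length_append]
          omega
        have h7 : C * (ξ.flatMap G').length ≤ C * (G a).length := Nat.mul_le_mul_left _ h6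
        have h8 := (hcmp a ha 0 hs').1
        rw [add_mul] at h5
        omega
      refine Finset.mem_biUnion.mpr ⟨a, Finset.mem_range.mpr ha, Finset.mem_biUnion.mpr
        ⟨β, hβ, Finset.mem_image.mpr ⟨ξ, mem_wordsUp hξ hξC, ?_⟩⟩⟩
      rw [← List.length_append, h3, List.drop_left]
    · obtain ⟨β, hβ, h1⟩ := hright ω ⟨ρ, hρ⟩ hle
      exact ⟨(true, β), Finset.mem_union_left _ (Finset.mem_image.mpr ⟨β, hβ, rfl⟩),
        Or.inl ⟨rfl, h1⟩⟩

end Pool.HD.helper56
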