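import Pool.Agent.Work.MP_4cd38d_pr.Interface

set_option autoImplicit false

namespace Pool.HD.helper56

open Pool.Agent.Work.MP_4cd38d_pr

/-- the overhang of the readable word `ω` -/
def OverIs (G G' : ℕ → List ℕ) (ω : List (ℕ ⊕ ℕ)) (x : Bool × List ℕ) : Prop :=
  (x.1 = true ∧ o2 G' ω = o1 G ω ++ x.2) ∨
  (x.1 = false ∧ x.2 ≠ [] ∧ o1 G ω = o2 G' ω ++ x.2)

theorem nerode_of (hRES : Stmt_RES) (s s' : ℕ) (G G' : ℕ → List ℕ)
    (F : Finset (Bool × List ℕ)) (N : ℕ) (hF : F.card + 1 ≤ N)
    (h : ∀ ω, (∃ ρ, ω ++ ρ ∈ WW s s' G G') → ∃ x ∈ F, OverIs G G' ω x) :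
    Nerode (WW s s' G G') N := by
  classical
  let d : List (ℕ ⊕ ℕ) → Option {x // x ∈ F} := fun ω =>
    if hω : ∃ ρ, ω ++ ρ ∈ WW s s' G G' then
      some ⟨(h ω hω).choose, (h ω hω).choose_spec.1⟩ else none
  have hcard : Fintype.card (Option {x // x ∈ F}) ≤ Fintype.card (Fin N) := by
    rw [Fintype.card_option, Fintype.card_coe, Fintype.card_fin]
    exact hF
  obtain ⟨e⟩ := Function.Embedding.nonempty_of_card_le hcard
  refine ⟨fun ω => e (d ω), fun ω ω' hc ρ => ?_⟩
  have hd : d ω = d ω' := e.injective hc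
  by_cases hω : ∃ ρ, ω ++ ρ ∈ WW s s' G G'
  · by_cases hω' : ∃ ρ, ω' ++ ρ ∈ WW s s' G G'
    · have h1 : d ω = some ⟨(h ω hω).choose, (h ω hω).choose_spec.1⟩ := dif_pos hω
      have h2 : d ω' = some ⟨(h ω' hω').choose, (h ω' hω').choose_spec.1⟩ := dif_pos hω'
      rw [h1, h2] at hd
      have h3 : (h ω hω).choose = (h ω' hω').choose := by
        have := Option.some.inj hd
        exact congrArg Subtype.val this
      have h4 := (h ω hω).choose_spec.2
      have h5 := (h ω' hω').choose_spec.2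
      rw [← h3] at h5
      refine hRES s s' G G' ω ω' hω hω' ?_ ρ
      rcases h4 with ⟨h6, h7⟩ | ⟨h6, h7, h8⟩
      · rcases h5 with ⟨h9, h10⟩ | ⟨h9, _⟩
        · exact Or.inl ⟨_, h7, h10⟩
        · rw [h6] at h9; exact absurd h9 (by simp)
      · rcases h5 with ⟨h9, _⟩ | ⟨h9, _, h10⟩
        · rw [h6] at h9; exact absurd h9 (by simp)
        · exact Or.inr ⟨_, h7, h8, h10⟩
    · have h1 : d ω = some ⟨(h ω hω).choose, (h ω hω).choose_spec.1⟩ := dif_pos hω
      have h2 : d ω' = none := dif_neg hω'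
      rw [h1, h2] at hd
      exact absurd hd (by simp)
  · by_cases hω' : ∃ ρ, ω' ++ ρ ∈ WW s s' G G'
    · have h1 : d ω = none := dif_neg hω
      have h2 : d ω' = some ⟨(h ω' hω').choose, (h ω' hω').choose_spec.1⟩ := dif_pos hω'
      rw [h1, h2] at hd
      exact absurd hd (by simp)
    · exact ⟨fun h' => absurd ⟨ρ, h'⟩ hω, fun h' => absurd ⟨ρ, h'⟩ hω'⟩

theorem sum_range_list (s : ℕ) (f : ℕ → ℕ) :
    ∑ a ∈ Finset.range s, f a = ((List.range s).map f).sum := by
  induction s with
  | zero => rfl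
  | succ n ih =>
    rw [Finset.sum_range_succ, List.range_succ, List.map_append, List.sum_append, ih]
    simp

theorem card_biUnion_range {α : Type*} [DecidableEq α] (s : ℕ) (G : ℕ → List ℕ)
    (f : ℕ → ℕ → α) :
    ((Finset.range s).biUnion fun a => (Finset.range ((G a).length + 1)).image (f a)).card ≤
      ((List.range s).map fun a => (G a).length + 1).sum := by
  refine Finset.card_biUnion_le.trans ?_
  rw [← sum_range_list]
  refine Finset.sum_le_sum fun a _ => ?_
  refine Finset.card_image_le.trans ?_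
  rw [Finset.card_range]

theorem stmt_LAM (hOV1 : Stmt_OV1) (hOV2 : Stmt_OV2) (hRES : Stmt_RES) : Stmt_LAM := by
  classical
  intro s s' G G' hNE
  set F1 : Finset (Bool × List ℕ) := (Finset.range s).biUnion fun a =>
    (Finset.range ((G a).length + 1)).image fun o => (false, (G a).drop o) with hF1
  set F2 : Finset (Bool × List ℕ) := (Finset.range s').biUnion fun b =>
    (Finset.range ((G' b).length + 1)).image fun o => (true, (G' b).drop o) with hF2
  refine nerode_of hRES s s' G G' ({(true, [])} ∪ (F1 ∪ F2)) _ ?_ ?_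
  · have h1 := card_biUnion_range s G fun a o => ((false, (G a).drop o) : Bool × List ℕ)
    have h2 := card_biUnion_range s' G' fun a o => ((true, (G' a).drop o) : Bool × List ℕ)
    have h3 := Finset.card_union_le ({(true, [])} : Finset (Bool × List ℕ)) (F1 ∪ F2)
    have h4 := Finset.card_union_le F1 F2
    rw [Finset.card_singleton] at h3
    rw [← hF1] at h1
    rw [← hF2] at h2
    unfold lam
    omega
  · rintro ω ⟨ρ, hρ⟩
    rcases Nat.lt_or_ge (o2 G' ω).length (o1 G ω).length with hlt | hle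
    · obtain ⟨ω₀, a, ξ, β, α, hω, ha, hξ, hle0, h1, h2, hα, h3⟩ := hOV2 s s' G G' hNE ω ρ hρ hlt
      refine ⟨(false, α), ?_, Or.inr ⟨rfl, hα, h2⟩⟩
      refine Finset.mem_union_right _ (Finset.mem_union_left _ ?_)
      rw [hF1, Finset.mem_biUnion]
      refine ⟨a, Finset.mem_range.mpr ha, Finset.mem_image.mpr
        ⟨(β ++ ξ.flatMap G').length, Finset.mem_range.mpr ?_, ?_⟩⟩
      · rw [h3]
        simp only [List.length_append]
        omega
      · rw [h3, List.drop_left]
    · rcases hOV1 s s' G G' hNE ω ρ hρ hle with h | ⟨a, b, y, o, ha, hb, hy, ho, h1, h2⟩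
      · refine ⟨(true, []), ?_, Or.inl ⟨rfl, ?_⟩⟩
        · exact Finset.mem_union_left _ (Finset.mem_singleton_self _)
        · simp only [List.append_nil]
          exact h.symm
      · refine ⟨(true, (G' b).drop o), ?_, Or.inl ⟨rfl, h1⟩⟩
        refine Finset.mem_union_right _ (Finset.mem_union_right _ ?_)
        rw [hF2, Finset.mem_biUnion]
        exact ⟨b, Finset.mem_range.mpr hb, Finset.mem_image.mpr
          ⟨o, Finset.mem_range.mpr (by omega), rfl⟩⟩

end Pool.HD.helper56
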