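import Pool.Agent.Work.MP_4cd38d_pr.Interface

set_option autoImplicit false

namespace Pool.HD.helper56

open Pool.Agent.Work.MP_4cd38d_pr

theorem pl_append (ω ρ : List (ℕ ⊕ ℕ)) : pl (ω ++ ρ) = pl ω ++ pl ρ :=
  List.filterMap_append

theorem pr_append (ω ρ : List (ℕ ⊕ ℕ)) : pr (ω ++ ρ) = pr ω ++ pr ρ :=
  List.filterMap_append

theorem o1_append (G : ℕ → List ℕ) (ω ρ : List (ℕ ⊕ ℕ)) :
    o1 G (ω ++ ρ) = o1 G ω ++ o1 G ρ := by
  simp only [o1, pl_append, List.flatMap_append]

theorem o2_append (G : ℕ → List ℕ) (ω ρ : List (ℕ ⊕ ℕ)) :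
    o2 G (ω ++ ρ) = o2 G ω ++ o2 G ρ := by
  simp only [o2, pr_append, List.flatMap_append]

theorem pl_inl (x : List ℕ) : pl (x.map Sum.inl) = x := by
  induction x with
  | nil => rfl
  | cons a x ih =>
    show pl (Sum.inl a :: x.map Sum.inl) = a :: x
    have h : pl (Sum.inl a :: x.map Sum.inl) = a :: pl (x.map Sum.inl) := rfl
    rw [h, ih]

theorem pr_inl (x : List ℕ) : pr (x.map Sum.inl) = [] := by
  induction x with
  | nil => rfl
  | cons a x ih =>
    have h : pr (Sum.inl a :: x.map Sum.inl) = pr (x.map Sum.inl) := rfl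
    show pr (Sum.inl a :: x.map Sum.inl) = []
    rw [h, ih]

theorem pl_cons_inr (b : ℕ) (ω : List (ℕ ⊕ ℕ)) : pl (Sum.inr b :: ω) = pl ω := rfl

theorem pr_cons_inr (b : ℕ) (ω : List (ℕ ⊕ ℕ)) : pr (Sum.inr b :: ω) = b :: pr ω := rfl

/-- the last right letter -/
theorem last_right (ω : List (ℕ ⊕ ℕ)) (h : pr ω ≠ []) :
    ∃ (ω₀ : List (ℕ ⊕ ℕ)) (b : ℕ) (x : List ℕ), ω = ω₀ ++ Sum.inr b :: x.map Sum.inl := by
  induction ω using List.reverseRecOn with
  | nil => exact absurd rfl h
  | append_singleton ω c ih =>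
    cases c with
    | inr b => exact ⟨ω, b, [], by simp⟩
    | inl a =>
      have h1 : pr (ω ++ [Sum.inl a]) = pr ω := by
        rw [pr_append]
        show pr ω ++ [] = pr ω
        rw [List.append_nil]
      rw [h1] at h
      obtain ⟨ω₀, b, x, hx⟩ := ih h
      refine ⟨ω₀, b, x ++ [a], ?_⟩
      rw [hx]
      simp

theorem stmt_OV1 : Stmt_OV1 := by
  intro s s' G G' hNE ω ρ hW hle
  obtain ⟨hl, hr, hcan, heq⟩ := hW
  by_cases hne : o1 G ω = o2 G' ω
  · exact Or.inl hne
  right
  have h1 : o1 G ω <+: o1 G (ω ++ ρ) := by rw [o1_append]; exact List.prefix_append _ _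
  have h2 : o2 G' ω <+: o1 G (ω ++ ρ) := by rw [heq, o2_append]; exact List.prefix_append _ _
  have h3 : o1 G ω <+: o2 G' ω := List.prefix_of_prefix_length_le h1 h2 hle
  have hlt : (o1 G ω).length < (o2 G' ω).length := by
    rcases Nat.lt_or_ge (o1 G ω).length (o2 G' ω).length with h | h
    · exact h
    · exact absurd (h3.eq_of_length (le_antisymm hle h)) hne
  have hprne : pr ω ≠ [] := by
    intro h
    rw [o2, h] at hlt
    simp at hlt
  obtain ⟨ω₀, b, x, hx⟩ := last_right ω hprne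
  have hpl : pl ω = pl ω₀ ++ x := by
    rw [hx, pl_append, pl_cons_inr, pl_inl]
  have hpr : pr ω = pr ω₀ ++ [b] := by
    rw [hx, pr_append, pr_cons_inr, pr_inl]
  have ho2 : o2 G' ω = o2 G' ω₀ ++ G' b := by
    rw [o2, hpr, List.flatMap_append, o2]
    simp
  have ho1 : o1 G ω = o1 G ω₀ ++ x.flatMap G := by
    rw [o1, hpl, List.flatMap_append, o1]
  have hc := hcan ω₀ (Sum.inr b) (by
    rw [hx]
    exact ⟨x.map Sum.inl ++ ρ, by simp⟩)
  have hgt : (o2 G' ω₀).length < (o1 G ω₀).length := by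
    by_contra hcon
    have := hc.mpr (not_lt.mp hcon)
    simp at this
  have hlen1 : (o1 G ω).length = (o1 G ω₀).length + (x.flatMap G).length := by
    rw [ho1, List.length_append]
  have hlen2 : (o2 G' ω).length = (o2 G' ω₀).length + (G' b).length := by
    rw [ho2, List.length_append]
  set o := (o1 G ω).length - (o2 G' ω₀).length with ho
  have hob : o < (G' b).length := by omega
  obtain ⟨β, hβ⟩ := h3
  have h4 : β = (G' b).drop o := by
    have h5 : β = (o2 G' ω).drop (o1 G ω).length := by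
      rw [← hβ, List.drop_left]
    rw [h5, ho2, List.drop_append, List.drop_eq_nil_of_le (by omega), List.nil_append]
  have hplρ : pl ρ ≠ [] := by
    intro h
    have h5 : (o1 G (ω ++ ρ)).length = (o1 G ω).length := by
      rw [o1_append, o1, o1, h]
      simp
    have h6 := h2.length_le
    omega
  obtain ⟨a, x', hax⟩ := List.exists_cons_of_ne_nil hplρ
  have ha : a < s := hl a (by rw [pl_append, hax]; simp)
  have hb : b < s' := hr b (by rw [pr_append, hpr]; simp)
  refine ⟨a, b, pr ρ, o, ha, hb, ?_, hob, ?_, ?_⟩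
  · intro c hc'
    exact hr c (by rw [pr_append]; exact List.mem_append_right _ hc')
  · rw [← h4, hβ]
  · have h5 : o1 G ω ++ (G a ++ x'.flatMap G) = o1 G ω ++ ((G' b).drop o ++ o2 G' ρ) := by
      have h6 : o1 G (ω ++ ρ) = o1 G ω ++ (G a ++ x'.flatMap G) := by
        rw [o1_append]
        congr 1
        rw [o1, hax, List.flatMap_cons]
      have h7 : o2 G' (ω ++ ρ) = o1 G ω ++ ((G' b).drop o ++ o2 G' ρ) := by
        rw [o2_append, ← hβ, h4, List.append_assoc]
      rw [← h6, heq, h7]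
    have h6 := List.append_cancel_left h5
    have h7 : ((b :: pr ρ).flatMap G').drop o = (G' b).drop o ++ o2 G' ρ := by
      rw [List.flatMap_cons, List.drop_append_of_le_length (le_of_lt hob), o2]
    rw [h7, ← h6]
    exact List.prefix_append _ _

end Pool.HD.helper56
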